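import Pool.Agent.H550W.Rough
import Pool.Agent.H447R2.ML.Luc

/-!
# Prime factors of terms of prime index of Lucas sequences
-/

set_option autoImplicit false

namespace Pool.Agent.H550W

open Pool.Agent.H447R2.ML

lemma pm_of_dvd {p q : ℕ} (hp : p.Prime) (hq : q.Prime) (h : p ∣ (q ^ 2 - 1) * (q ^ 2 - q)) (hne : q ≠ p) :
    p ∣ q - 1 ∨ p ∣ q + 1 := by
  have e1 : (q ^ 2 - 1) = (q + 1) * (q - 1) := by
    have := Nat.sq_sub_sq q 1
    simpa using this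
  have e2 : q ^ 2 - q = q * (q - 1) := by
    rw [sq, Nat.mul_sub_one]
  rw [e1, e2] at h
  rcases (hp.dvd_mul).mp h with h1 | h1
  · rcases (hp.dvd_mul).mp h1 with h2 | h2
    · exact Or.inr h2
    · exact Or.inl h2
  · rcases (hp.dvd_mul).mp h1 with h2 | h2
    · exact absurd ((Nat.prime_dvd_prime_iff_eq hp hq).mp h2).symm hne
    · exact Or.inl h2

lemma U_factor (P : ℕ) {p q : ℕ} (hp : p.Prime) (hq : q.Prime) (hne : q ≠ p) (h : q ∣ U P p) :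
    p ∣ q - 1 ∨ p ∣ q + 1 := by
  refine pm_of_dvd hp hq ?_ hne
  by_contra hcon
  have h1 := dvd_gcd hq _ _ h (dvd_card P hq)
  have h2 : Nat.gcd p ((q ^ 2 - 1) * (q ^ 2 - q)) = 1 := (Nat.Prime.coprime_iff_not_dvd hp).mpr hcon
  rw [h2, U_one] at h1
  exact hq.one_lt.ne' (Nat.dvd_one.mp h1)

lemma V_factor (P : ℕ) {p q : ℕ} (hp : p.Prime) (hq : q.Prime) (hne : q ≠ p) (hqP : ¬ q ∣ P) (h : q ∣ V P p) :
    p ∣ q - 1 ∨ p ∣ q + 1 := by
  refine pm_of_dvd hp hq ?_ hne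
  by_contra hcon
  have h0 : q ∣ U P (2 * p) := by
    obtain ⟨n, hn⟩ := Nat.exists_eq_succ_of_ne_zero hp.ne_zero
    rw [Nat.succ_eq_add_one] at hn
    rw [hn] at h ⊢
    rw [U_two_mul]
    exact h.mul_left _
  have h1 := dvd_gcd hq _ _ h0 (dvd_card P hq)
  have h2 : Nat.gcd (2 * p) ((q ^ 2 - 1) * (q ^ 2 - q)) ∣ 2 := by
    have h3 : Nat.Coprime (Nat.gcd (2 * p) ((q ^ 2 - 1) * (q ^ 2 - q))) p := by
      rw [Nat.coprime_comm]
      refine (Nat.Prime.coprime_iff_not_dvd hp).mpr fun h4 => hcon (h4.trans (Nat.gcd_dvd_right _ _))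
    exact h3.dvd_of_dvd_mul_right (Nat.gcd_dvd_left _ _)
  have h5 := dvd_of_dvd hq h1 h2
  rw [U_two] at h5
  exact hqP h5

lemma U_fib : ∀ n : ℕ, U 1 n = Nat.fib n
  | 0 => rfl
  | 1 => rfl
  | (n + 2) => by
      rw [U_add_two, U_fib (n + 1), U_fib n, Nat.fib_add_two]
      ring

lemma V_fib (n : ℕ) : V 1 (n + 1) = Nat.fib (n + 2) + Nat.fib n := by
  rw [V_eq, U_fib, U_fib]

end Pool.Agent.H550W
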