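import Pool.Agent.H550W.Rough

/-!
# Prime exponents `p` for which no `M_p (a, b)` has a small prime factor

Let `f(x) = log x (log₂ x)² log₄ x / (log₃ x)²`.  For every squarefree `d` there is `c > 0` such that for all large `X` and
all `h` prime to `d` there are at least `X ^ (9 / 10)` primes `p` in `(X, 3 X]`, `p ≡ h (mod d)`, such that for all coprime
integers `a > 1`, `-a < b < a` simultaneously every prime factor `q ≠ p` of `M_p (a, b) = (a ^ p - b ^ p) / (a - b)` is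
larger than `c X f(X)`.
-/

namespace Pool.Agent.H550W.MersenneRough

/-- The record scale `f(x) = log x (log₂ x)² log₄ x / (log₃ x)²` (iterated natural logarithms). -/
noncomputable def f (x : ℝ) : ℝ :=
  Real.log x * (Real.log (Real.log x)) ^ 2 * Real.log (Real.log (Real.log (Real.log x))) /
    (Real.log (Real.log (Real.log x))) ^ 2

theorem result (d : ℕ) (hd : Squarefree d) :
    ∃ c : ℝ, 0 < c ∧ ∃ X₀ : ℝ, ∀ X : ℝ, X₀ ≤ X → ∀ h : ℕ, h.Coprime d →
    X ^ (9 / 10 : ℝ) ≤ ({p : ℕ | p.Prime ∧ X < p ∧ (p : ℝ) ≤ 3 * X ∧ p ≡ h [MOD d] ∧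
      ∀ a b : ℤ, IsCoprime a b → 1 < a → -a < b → b < a → ∀ q : ℕ, q.Prime → q ≠ p →
        (q : ℤ) ∣ (a ^ p - b ^ p) / (a - b) → c * (X * f X) < q}.ncard : ℝ) := by
  obtain ⟨c, hc, X₀, -, hX⟩ := Pool.Agent.H550W.rough d hd
  refine ⟨c, hc, X₀, fun X hXX h hh => hX X hXX h hh _ ?_⟩
  intro p hp _ _ hq0 a b hab _ _ hba q hq hqp hdvd
  exact hq0 q hq (Or.inl (Pool.Agent.H550W.mersenne_factor hab hba.ne' hp hq hqp hdvd))

end Pool.Agent.H550W.MersenneRough
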