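import Pool.Agent.H550W.Lucas

/-!
# Powers of `1 + √2`
-/

set_option autoImplicit false

namespace Pool.Agent.H550W

open Pool.Agent.H447R2.ML

lemma pell_pow : ∀ n : ℕ, (1 + Real.sqrt 2) ^ (n + 1) =
    ((U 2 (n + 1) + U 2 n : ℕ) : ℝ) + (U 2 (n + 1) : ℕ) * Real.sqrt 2
  | 0 => by simp [U_one, U_zero]
  | (n + 1) => by
      have h2 : Real.sqrt 2 * Real.sqrt 2 = 2 := Real.mul_self_sqrt (by norm_num)
      rw [pow_succ, pell_pow n, U_add_two 2 n]
      push_cast
      linear_combination (U 2 (n + 1) : ℝ) * h2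

lemma sqrt_two_unique {a b x y : ℕ} (h : (x : ℝ) + y * Real.sqrt 2 = (a : ℝ) + b * Real.sqrt 2) : x = a ∧ y = b := by
  have hy : y = b := by
    by_contra hne
    have hne' : ((y : ℝ) - b) ≠ 0 := sub_ne_zero.mpr (by exact_mod_cast hne)
    have h1 : Real.sqrt 2 = ((((a : ℚ) - x) / ((y : ℚ) - b) : ℚ) : ℝ) := by
      push_cast
      rw [eq_div_iff hne']
      linear_combination h
    exact irrational_sqrt_two ⟨_, h1.symm⟩
  rw [hy] at h
  refine ⟨?_, hy⟩
  have : (x : ℝ) = a := by linarith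
  exact_mod_cast this

lemma U_two_mod : ∀ n : ℕ, U 2 n % 2 = n % 2
  | 0 => rfl
  | 1 => rfl
  | (n + 2) => by
      have := U_two_mod n
      rw [U_add_two]
      omega

/-- prime factors of the two coordinates of `(1 + √2) ^ p` -/
theorem pell_factor {p x y : ℕ} (hp : p.Prime) (hp2 : p ≠ 2)
    (h : (x : ℝ) + y * Real.sqrt 2 = (1 + Real.sqrt 2) ^ p) {q : ℕ} (hq : q.Prime) (hd : q ∣ x * y) :
    p ∣ q - 1 ∨ p ∣ q + 1 := by
  obtain ⟨n, hn⟩ : ∃ n, p = n + 1 := ⟨p - 1, by have := hp.two_le; omega⟩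
  have hodd : p % 2 = 1 := hp.eq_two_or_odd.resolve_left hp2
  rw [hn, pell_pow n] at h
  obtain ⟨hx, hy⟩ := sqrt_two_unique h
  rw [← hn] at hy hx
  rcases (hq.dvd_mul).mp hd with h1 | h1
  · -- `x = V p / 2`
    have h2 : V 2 p = 2 * x := by
      rw [hn, V_eq, U_add_two, hx, hn]
      ring
    have h3 : q ∣ V 2 p := by rw [h2]; exact h1.mul_left _
    have hq2 : ¬ q ∣ 2 := by
      intro h4
      have h5 := (Nat.prime_dvd_prime_iff_eq hq Nat.prime_two).mp h4
      rw [h5] at h1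
      have e1 := U_two_mod p
      have e2 := U_two_mod n
      omega
    have hne : q ≠ p := by
      rintro rfl
      have h4 := V_prime 2 hp
      have h5 : ((V 2 q : ℕ) : ZMod q) = 0 := (ZMod.natCast_eq_zero_iff _ _).mpr h3
      rw [h5] at h4
      exact hq2 ((ZMod.natCast_eq_zero_iff 2 q).mp (by exact_mod_cast h4.symm))
    exact V_factor 2 hp hq hne hq2 h3
  · rw [hy] at h1
    have hne : q ≠ p := by
      rintro rfl
      refine not_dvd_self 2 hp hp2 ?_ h1
      intro h4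
      have h5 : q ∣ 2 ^ 3 := by norm_num at h4 ⊢; exact h4
      exact hp2 ((Nat.prime_dvd_prime_iff_eq hp Nat.prime_two).mp (hp.dvd_of_dvd_pow h5))
    exact U_factor 2 hp hq hne h1

end Pool.Agent.H550W
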