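import Pool.Agent.H550W.Pell

/-!
# Solutions of `p² - 2 r² = -1` without small prime factors

Let `f(x) = log x (log₂ x)² log₄ x / (log₃ x)²`.  For every squarefree `d` there is `c > 0` such that for all large `X` and
all `h` prime to `d` there are at least `X ^ (9 / 10)` primes `l` in `(X, 3 X]`, `l ≡ h (mod d)`, such that for the solution
`(x, y)` given by `x + y √2 = (1 + √2) ^ l` every prime factor of `x y` is larger than `c X f(X)`.
-/

namespace Pool.Agent.H550W.PellRough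

/-- The record scale `f(x) = log x (log₂ x)² log₄ x / (log₃ x)²` (iterated natural logarithms). -/
noncomputable def f (x : ℝ) : ℝ :=
  Real.log x * (Real.log (Real.log x)) ^ 2 * Real.log (Real.log (Real.log (Real.log x))) /
    (Real.log (Real.log (Real.log x))) ^ 2

theorem result (d : ℕ) (hd : Squarefree d) :
    ∃ c : ℝ, 0 < c ∧ ∃ X₀ : ℝ, ∀ X : ℝ, X₀ ≤ X → ∀ h : ℕ, h.Coprime d →
    X ^ (9 / 10 : ℝ) ≤ ({l : ℕ | l.Prime ∧ X < l ∧ (l : ℝ) ≤ 3 * X ∧ l ≡ h [MOD d] ∧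
      ∃ x y : ℕ, (x : ℝ) + y * Real.sqrt 2 = (1 + Real.sqrt 2) ^ l ∧ (x : ℤ) ^ 2 - 2 * (y : ℤ) ^ 2 = -1 ∧
        ∀ q : ℕ, q.Prime → q ∣ x * y → c * (X * f X) < q}.ncard : ℝ) := by
  obtain ⟨c, hc, X₀, -, hX⟩ := Pool.Agent.H550W.rough d hd
  refine ⟨c, hc, max X₀ 2, fun X hXX h hh => hX X ((le_max_left _ _).trans hXX) h hh _ ?_⟩
  intro p hp hXp _ hq0
  have hX2 : (2 : ℝ) ≤ X := (le_max_right _ _).trans hXX
  have hp2 : p ≠ 2 := by
    rintro rfl
    norm_num at hXp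
    linarith
  obtain ⟨n, hn⟩ : ∃ n, p = n + 1 := ⟨p - 1, by have := hp.two_le; omega⟩
  have hpow := Pool.Agent.H550W.pell_pow n
  rw [← hn] at hpow
  refine ⟨_, _, hpow.symm, ?_, fun q hq hdvd => hq0 q hq (Pool.Agent.H550W.pell_factor hp hp2 hpow.symm hq hdvd)⟩
  -- the norm
  have hodd : Odd p := hp.odd_of_ne_two hp2
  have hc := Pool.Agent.H447R2.ML.cassini 2 n
  rw [Pool.Agent.H447R2.ML.U_add_two] at hc
  have h1 : (-1 : ℤ) ^ (n + 1) = -1 := by rw [← hn]; exact hodd.neg_one_pow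
  rw [h1] at hc
  push_cast at hc ⊢
  rw [hn]
  linear_combination hc

end Pool.Agent.H550W.PellRough
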