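import Pool.Agent.R502.PF.Forms

/-!
# Primes `p` with no small prime `≡ ± 1 (mod p)`
-/

set_option autoImplicit false

open Filter

namespace Pool.Agent.H550W

/-- The record scale `f(x) = log x (log₂ x)² log₄ x / (log₃ x)²` (iterated natural logarithms). -/
noncomputable def f (x : ℝ) : ℝ :=
  Real.log x * (Real.log (Real.log x)) ^ 2 * Real.log (Real.log (Real.log (Real.log x))) /
    (Real.log (Real.log (Real.log x))) ^ 2

theorem rough (d : ℕ) (hd : Squarefree d) :
    ∃ c : ℝ, 0 < c ∧ ∃ X₀ : ℝ, 1 ≤ X₀ ∧ ∀ X : ℝ, X₀ ≤ X → ∀ h : ℕ, h.Coprime d →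
    ∀ P : ℕ → Prop, (∀ p : ℕ, p.Prime → X < p → p ≡ h [MOD d] →
      (∀ q : ℕ, q.Prime → (p ∣ q - 1 ∨ p ∣ q + 1) → c * (X * f X) < q) → P p) →
    X ^ (9 / 10 : ℝ) ≤ ({p : ℕ | p.Prime ∧ X < p ∧ (p : ℝ) ≤ 3 * X ∧ p ≡ h [MOD d] ∧ P p}.ncard : ℝ) := by
  obtain ⟨c, hc, hX⟩ := Pool.Agent.R502.PF.forms 1 1 one_ne_zero one_ne_zero d hd
  obtain ⟨X₀, hX₀⟩ := eventually_atTop.1 hX
  refine ⟨c / 2, by positivity, max X₀ 1, le_max_right _ _, fun X hXX h hh P hP => ?_⟩
  have hX1 : 1 ≤ X := (le_max_right _ _).trans hXX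
  set S := {p : ℕ | p.Prime ∧ X < p ∧ (p : ℝ) ≤ 3 * X ∧ p ≡ h [MOD d] ∧ P p} with hS
  have hfin : S.Finite := by
    apply (Set.finite_Iic ⌊3 * X⌋₊).subset
    intro p hp
    exact Set.mem_Iic.2 (Nat.le_floor hp.2.2.1)
  by_contra hcon
  push Not at hcon
  rw [Set.ncard_eq_toFinset_card S hfin] at hcon
  obtain ⟨p, hp, hXp, hp3, hpb, hpd, hmain⟩ := hX₀ X ((le_max_left _ _).trans hXX) h hh hfin.toFinset hcon.le
  apply hpb
  rw [Set.Finite.mem_toFinset]
  refine ⟨hp, hXp, hp3, hpd, hP p hp hXp hpd ?_⟩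
  intro q hq hdiv
  have hq2 := hq.two_le
  have hp2 := hp.two_le
  have hpr : (2 : ℝ) ≤ p := by exact_mod_cast hp2
  -- `q = k p ± 1` with `k > c f X`
  have key : ∃ k : ℕ, 1 ≤ k ∧ c * f X < k ∧ k * p ≤ q + 1 := by
    rcases hdiv with ⟨k, hk⟩ | ⟨k, hk⟩
    · have hk0 : 1 ≤ k := by
        rcases Nat.eq_zero_or_pos k with h0 | h0
        · rw [h0] at hk; omega
        · exact h0
      refine ⟨k, hk0, ?_, ?_⟩
      · by_contra hle
        push Not at hle
        refine hmain (k : ℤ) (by omega) ?_ ?_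
        · rw [Int.cast_natCast, abs_of_nonneg (Nat.cast_nonneg k)]
          exact hle
        · have e1 : (1 : ℤ) * (k : ℤ) * p + 1 = ((q : ℕ) : ℤ) := by
            have e2 : q = p * k + 1 := by omega
            rw [e2]; push_cast; ring
          rw [e1, Int.natAbs_natCast]
          exact hq
      · rw [mul_comm]; omega
    · have hk0 : 1 ≤ k := by
        rcases Nat.eq_zero_or_pos k with h0 | h0
        · rw [h0] at hk; omega
        · exact h0
      refine ⟨k, hk0, ?_, ?_⟩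
      · by_contra hle
        push Not at hle
        refine hmain (-(k : ℤ)) (by omega) ?_ ?_
        · rw [Int.cast_neg, abs_neg, Int.cast_natCast, abs_of_nonneg (Nat.cast_nonneg k)]
          exact hle
        · have e1 : (1 : ℤ) * (-(k : ℤ)) * p + 1 = -((q : ℕ) : ℤ) := by
            have e2 : (q : ℤ) + 1 = p * k := by exact_mod_cast hk
            linarith
          rw [e1, Int.natAbs_neg, Int.natAbs_natCast]
          exact hq
      · rw [mul_comm]; omega
  obtain ⟨k, hk1, hk2, hk3⟩ := key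
  have hk1r : (1 : ℝ) ≤ k := by exact_mod_cast hk1
  have hk3r : (k : ℝ) * p ≤ q + 1 := by exact_mod_cast hk3
  have hq2r : (2 : ℝ) ≤ q := by exact_mod_cast hq2
  rcases le_or_gt 0 (f X) with hf | hf
  · have h1 : c * f X * X < k * p := by
      have h2 : c * f X * X ≤ k * X := by nlinarith
      have h3 : (k : ℝ) * X < k * p := by nlinarith
      linarith
    have h4 : c / 2 * (X * f X) = c * f X * X / 2 := by ring
    rw [h4]
    linarith
  · have h1 : c / 2 * (X * f X) ≤ 0 := by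
      have : X * f X ≤ 0 := mul_nonpos_of_nonneg_of_nonpos (by linarith) hf.le
      nlinarith
    linarith

/-- prime factors of `(a ^ p - b ^ p) / (a - b)` -/
theorem mersenne_factor {a b : ℤ} (hab : IsCoprime a b) (hne : a ≠ b) {p q : ℕ} (hp : p.Prime) (hq : q.Prime)
    (hqp : q ≠ p) (h : (q : ℤ) ∣ (a ^ p - b ^ p) / (a - b)) : p ∣ q - 1 := by
  have : Fact q.Prime := ⟨hq⟩
  have hab0 : a - b ≠ 0 := sub_ne_zero.mpr hne
  have hM : (a ^ p - b ^ p) / (a - b) = ∑ i ∈ Finset.range p, a ^ i * b ^ (p - 1 - i) := by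
    rw [← (Commute.all a b).geom_sum₂_mul p, Int.mul_ediv_cancel _ hab0]
  rw [hM] at h
  have hz : (∑ i ∈ Finset.range p, (a : ZMod q) ^ i * (b : ZMod q) ^ (p - 1 - i)) = 0 := by
    have := (ZMod.intCast_zmod_eq_zero_iff_dvd _ _).mpr h
    rw [← this]; push_cast; rfl
  have hpow : (a : ZMod q) ^ p = (b : ZMod q) ^ p := by
    have h1 := (Commute.all (a : ZMod q) (b : ZMod q)).geom_sum₂_mul p
    rw [hz, zero_mul] at h1
    exact (sub_eq_zero.mp h1.symm)
  have hb : (b : ZMod q) ≠ 0 := by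
    intro hb0
    have ha0 : (a : ZMod q) = 0 := by
      rw [hb0, zero_pow hp.ne_zero] at hpow
      exact pow_eq_zero_iff hp.ne_zero |>.mp hpow
    obtain ⟨u, v, huv⟩ := hab
    have h2 : ((u * a + v * b : ℤ) : ZMod q) = 1 := by rw [huv]; simp
    push_cast at h2
    rw [ha0, hb0, mul_zero, mul_zero, add_zero] at h2
    exact zero_ne_one h2
  set u : ZMod q := a / b with hu
  have hup : u ^ p = 1 := by
    rw [hu, div_pow, hpow, div_self (pow_ne_zero _ hb)]
  have hu0 : u ≠ 0 := by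
    intro h0
    rw [h0, zero_pow hp.ne_zero] at hup
    exact zero_ne_one hup
  rcases (Nat.dvd_prime hp).mp (orderOf_dvd_of_pow_eq_one hup) with h1 | h1
  · exfalso
    rw [orderOf_eq_one_iff] at h1
    have hab' : (a : ZMod q) = b := by
      rw [hu, div_eq_one_iff_eq hb] at h1
      exact h1
    have h3 : ∀ i ∈ Finset.range p, (a : ZMod q) ^ i * (b : ZMod q) ^ (p - 1 - i) = (b : ZMod q) ^ (p - 1) := by
      intro i hi
      rw [Finset.mem_range] at hi
      rw [hab', ← pow_add]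
      congr 1
      omega
    rw [Finset.sum_congr rfl h3, Finset.sum_const, Finset.card_range, nsmul_eq_mul, mul_eq_zero] at hz
    rcases hz with h4 | h4
    · have h5 : q ∣ p := (ZMod.natCast_eq_zero_iff _ _).mp h4
      exact hqp ((Nat.prime_dvd_prime_iff_eq hq hp).mp h5)
    · exact hb (pow_eq_zero_iff (by have := hp.two_le; omega) |>.mp h4)
  · rw [← h1]
    exact ZMod.orderOf_dvd_card_sub_one hu0

end Pool.Agent.H550W
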